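import Pool.Agent.L0h55.GI.ZMT
import Pool.Agent.L0h38.GI.Stm3

/-!
# Project GI2, module UN2: the labelled graph is determined by the group
-/

set_option autoImplicit false

namespace Pool.Agent.L0h19.GI

open Pool.Agent.L0h38.GI Pool.Agent.L0h55.GI

theorem ok3_of_ok2 {X : Type} [Group X] (h : Ok2 X) : Ok3 X := by
  rcases h with ⟨h1, -, h2⟩ | ⟨⟨e⟩⟩
  · exact ⟨Or.inl h1, h2.1⟩
  · refine ⟨Or.inr ⟨e⟩, e.symm (Multiplicative.ofAdd 1), fun h => ?_⟩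
    have h1 : Multiplicative.ofAdd (1 : ℤ) = e 1 := e.symm_apply_eq.mp h
    rw [map_one e] at h1
    have h2 : (1 : ℤ) = 0 := congrArg Multiplicative.toAdd h1
    exact one_ne_zero h2

/-- **UN2** -/
theorem t_UN2 (hSIG : S_SIG) (hLIN : S_LIN) (hSYL : S_SYL) (hFAZ : S_FAZ) : S_UN2 := by
  classical
  rintro V W _ _ Γ Δ G H _ _ hG hH ⟨e⟩
  have : Fintype (VZ G) := Fintype.ofFinite _
  have : Fintype (VZ H) := Fintype.ofFinite _
  have c : ∀ i : VZ G, G i.1 ≃* Multiplicative ℤ := fun i => Classical.choice i.2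
  have d : ∀ j : VZ H, H j.1 ≃* Multiplicative ℤ := fun j => Classical.choice j.2
  obtain ⟨L⟩ := hLIN V W Γ Δ G H (fun v => ok3_of_ok2 (hG v)) (fun w => ok3_of_ok2 (hH w)) e c d
  obtain ⟨σ, hσ1, hσ2, hσ3⟩ := hSIG V W Γ Δ G H hG hH e c d L
  have hlin : Nonempty (LinIso (K := {v : V // FA (G v)}) (Γ.comap (Subtype.val : VZ G → V))
      (Δ.comap (Subtype.val : VZ H → W)) (fun k => {i | Γ.Adj k.1 i.1})
      (fun k => {j | Δ.Adj (σ k).1 j.1})) := by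
    refine ⟨⟨L.T, L.T', L.h1, L.h2, ?_, ?_, ?_, ?_⟩⟩
    · intro i k h a b hab hn
      exact L.a1 i k h a b hab hn
    · intro i k h a b hab hn
      exact L.a2 i k h a b hab hn
    · intro k i hi j hj
      have h1 := (hσ3 k (Pi.single i 1)).1 (by
        intro i' hi'
        rcases eq_or_ne i' i with rfl | hne
        · exact hi
        · rw [Pi.single_eq_of_ne hne] at hi'
          exact absurd rfl hi') j
      rw [Matrix.mulVec_single_one] at h1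
      by_contra h
      exact hj (h1 h)
    · intro k i hi j hj
      have h2 : L.T.mulVec (L.T'.mulVec (Pi.single i 1)) = Pi.single i 1 := by
        rw [Matrix.mulVec_mulVec, L.h1, Matrix.one_mulVec]
      have h1 := (hσ3 k (L.T'.mulVec (Pi.single i 1))).2 (by
        intro i' hi'
        rw [h2] at hi'
        rcases eq_or_ne i' i with rfl | hne
        · exact hi
        · rw [Pi.single_eq_of_ne hne] at hi'
          exact absurd rfl hi') j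
      rw [Matrix.mulVec_single_one] at h1
      by_contra h
      exact hj (h1 h)
  obtain ⟨π, hπ1, hπ2⟩ := hSYL _ _ _ _ _ _ _ hlin
  have cG : ∀ v, (FA (G v) ∧ ¬ IsZ (G v)) ∨ IsZ (G v) := by
    intro v
    rcases hG v with ⟨h, -, -⟩ | h
    · exact Or.inl ⟨h, fun h' => not_FA_Z hFAZ h h'⟩
    · exact Or.inr h
  have cH : ∀ v, (FA (H v) ∧ ¬ IsZ (H v)) ∨ IsZ (H v) := by
    intro v
    rcases hH v with ⟨h, -, -⟩ | h
    · exact Or.inl ⟨h, fun h' => not_FA_Z hFAZ h h'⟩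
    · exact Or.inr h
  have dG : ∀ v, ¬ IsZ (G v) → FA (G v) := fun v h => ((cG v).resolve_right h).1
  have dH : ∀ v, ¬ IsZ (H v) → FA (H v) := fun v h => ((cH v).resolve_right h).1
  obtain ⟨f, hf1, hf2⟩ : ∃ f : V → W, (∀ v (h : IsZ (G v)), f v = (π ⟨v, h⟩).1) ∧
      ∀ v (h : FA (G v)), f v = (σ ⟨v, h⟩).1 :=
    ⟨fun v => if h : IsZ (G v) then (π ⟨v, h⟩).1 else (σ ⟨v, dG v h⟩).1, fun v h => dif_pos h,
      fun v h => dif_neg fun h' => not_FA_Z hFAZ h h'⟩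
  obtain ⟨f', hf1', hf2'⟩ : ∃ f' : W → V, (∀ v (h : IsZ (H v)), f' v = (π.symm ⟨v, h⟩).1) ∧
      ∀ v (h : FA (H v)), f' v = (σ.symm ⟨v, h⟩).1 :=
    ⟨fun v => if h : IsZ (H v) then (π.symm ⟨v, h⟩).1 else (σ.symm ⟨v, dH v h⟩).1,
      fun v h => dif_pos h, fun v h => dif_neg fun h' => not_FA_Z hFAZ h h'⟩
  have left : ∀ v, f' (f v) = v := by
    intro v
    rcases cG v with ⟨h1, h2⟩ | h2
    · rw [hf2 v h1, hf2' _ (σ ⟨v, h1⟩).2]
      simp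
    · rw [hf1 v h2, hf1' _ (π ⟨v, h2⟩).2]
      simp
  have right : ∀ w, f (f' w) = w := by
    intro w
    rcases cH w with ⟨h1, h2⟩ | h2
    · rw [hf2' w h1, hf2 _ (σ.symm ⟨w, h1⟩).2]
      simp
    · rw [hf1' w h2, hf1 _ (π.symm ⟨w, h2⟩).2]
      simp
  have hFZ : ∀ v i (h : IsZ (G i)) (h' : FA (G v)),
      (Δ.Adj (σ ⟨v, h'⟩).1 (π ⟨i, h⟩).1 ↔ Γ.Adj v i) := by
    intro v i h hv
    exact (hπ2 ⟨v, hv⟩ ⟨i, h⟩).symm
  have hadj : ∀ v w, Δ.Adj (f v) (f w) ↔ Γ.Adj v w := by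
    intro v w
    rcases cG v with ⟨h1, h2⟩ | h2 <;> rcases cG w with ⟨h3, h4⟩ | h4
    · rw [hf2 v h1, hf2 w h3]
      exact (hσ2 ⟨v, h1⟩ ⟨w, h3⟩).symm
    · rw [hf2 v h1, hf1 w h4]
      exact hFZ v w h4 h1
    · rw [hf1 v h2, hf2 w h3, Δ.adj_comm, Γ.adj_comm]
      exact hFZ w v h2 h3
    · rw [hf1 v h2, hf1 w h4]
      exact (hπ1 ⟨v, h2⟩ ⟨w, h4⟩).symm
  refine ⟨⟨⟨f, f', left, right⟩, fun {v w} => hadj v w⟩, fun v => ?_⟩
  show Nonempty (G v ≃* H (f v))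
  rcases cG v with ⟨h1, h2⟩ | h2
  · rw [hf2 v h1]
    exact hσ1 ⟨v, h1⟩
  · rw [hf1 v h2]
    exact ⟨(c ⟨v, h2⟩).trans (d (π ⟨v, h2⟩)).symm⟩

end Pool.Agent.L0h19.GI
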